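import Pool.Agent.Helper14.TL7.StD

/-! # Project TL (MP_1d384c_nt): module Ex for the prime 7 (every solution of the relations comes from a twisted symbol) -/

set_option autoImplicit false

namespace Pool.Agent.Helper45.TL7

open Pool.Agent.Helper14.CV (Homog EqC act Tl StFar StFex)
open Pool.Agent.Helper28.WK (Tw evw)
open Pool.Agent.Helper4.TL
open Pool.Agent.Helper76.S7 (Pl7 rY7 edge7 S7PlA S7PlU)
open Pool.Agent.Helper76.TL7 (edgeE7 EEdg7)
open Pool.Agent.Helper84.S7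
open Pool.Agent.Helper14.TL7

private theorem eps_eq {a b c d A B C D : ℤ} (h1 : A = a) (h2 : B = b) (h3 : C = c) (h4 : D = d) :
    eps A B C D = eps a b c d := by
  subst h1 h2 h3 h4
  rfl

private theorem odd_one {x : ℤ} (h : x = 1) : ¬ (2 : ℤ) ∣ x := by
  rw [h]
  decide

private theorem cop {r : ℕ} {a : ℤ} (h : ¬ 7 ∣ a) : IsUnit ((a : ℤ) : ZMod (7 ^ r)) := by
  have h1 : IsCoprime a 7 := by
    have := (Int.prime_ofNat_iff.2 (by norm_num : Nat.Prime 7)).coprime_iff_not_dvd.2 h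
    exact this.symm
  have h2 : IsCoprime a ((7 ^ r : ℕ) : ℤ) := by
    push_cast
    exact h1.pow_right
  exact (ZMod.coe_int_isUnit_iff_isCoprime a (7 ^ r)).2 h2.symm

private theorem den {r : ℕ} {a c : ℤ} (x : ZMod (7 ^ r)) (h : ¬ 7 ∣ a) :
    IsUnit ((a : ZMod (7 ^ r)) + 7 * c * x) := by
  have : NeZero (7 ^ r) := ⟨pow_ne_zero _ (by norm_num)⟩
  have : (a : ZMod (7 ^ r)) + 7 * c * x = ((a + 7 * c * (x.val : ℤ) : ℤ) : ZMod (7 ^ r)) := by
    push_cast
    rw [ZMod.natCast_zmod_val]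
  rw [this]
  apply cop
  intro h3
  exact h ((dvd_add_left (⟨c * (x.val : ℤ), by ring⟩ : (7 : ℤ) ∣ 7 * c * (x.val : ℤ))).1 h3)

private theorem res {a b c d : ℤ} (h : a * d - 7 * (b * c) = 1) : ¬ 7 ∣ a ∧ ¬ 7 ∣ d := by
  constructor
  · rintro ⟨k, rfl⟩
    have : 7 * k * d = 7 * (k * d) := by ring
    omega
  · rintro ⟨k, rfl⟩
    have : a * (7 * k) = 7 * (a * k) := by ring
    omega

private theorem pl_det {q q' : ℕ} {a b c d : ℤ} {x : ZMod q} {y : ZMod q'}
    (h : Pl7 0 a b c d x y) : a * d - 7 * (b * c) = 1 := by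
  linear_combination h.1

private theorem pl_mk (r s : ℕ) {a b c d : ℤ} (h : a * d - 7 * (b * c) = 1) :
    ∃ (x : ZMod (7 ^ r)) (y : ZMod (7 ^ s)), Pl7 0 a b c d x y := by
  have hr := res h
  refine ⟨(b : ZMod (7 ^ r)) * (a : ZMod (7 ^ r))⁻¹, (c : ZMod (7 ^ s)) * (d : ZMod (7 ^ s))⁻¹,
    by linear_combination h, ?_, ?_⟩
  · rw [mul_assoc, ZMod.inv_mul_of_unit _ (cop hr.1), mul_one]
  · rw [mul_assoc, ZMod.inv_mul_of_unit _ (cop hr.2), mul_one]

private theorem pl_neg {q q' : ℕ} {a b c d : ℤ} {x : ZMod q} {y : ZMod q'}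
    (h : Pl7 0 a b c d x y) : Pl7 0 (-a) (-b) (-c) (-d) x y := by
  obtain ⟨h1, h2, h3⟩ := h
  refine ⟨by linear_combination h1, ?_, ?_⟩
  · push_cast
    linear_combination -h2
  · push_cast
    linear_combination -h3

private theorem pl_mul {r s : ℕ} {a b c d : ℤ} {x : ZMod (7 ^ r)} {y : ZMod (7 ^ s)}
    (h : Pl7 0 a b c d x y) {α β γ δ : ℤ} (hm : α * δ - 7 * (β * γ) = 1) :
    Pl7 0 (a * α + 7 * b * γ) (a * β + b * δ) (c * α + d * γ) (7 * c * β + d * δ)
      (((β : ZMod (7 ^ r)) + (δ : ZMod (7 ^ r)) * x) *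
        ((α : ZMod (7 ^ r)) + 7 * (γ : ZMod (7 ^ r)) * x)⁻¹)
      (((γ : ZMod (7 ^ s)) + (α : ZMod (7 ^ s)) * y) *
        ((δ : ZMod (7 ^ s)) + 7 * (β : ZMod (7 ^ s)) * y)⁻¹) := by
  obtain ⟨h1, h2, h3⟩ := h
  have hr := res hm
  have u1 := ZMod.inv_mul_of_unit _ (den (r := r) (a := α) (c := γ) x hr.1)
  have u2 := ZMod.inv_mul_of_unit _ (den (r := s) (a := δ) (c := β) y hr.2)
  refine ⟨?_, ?_, ?_⟩
  · have e : (a * α + 7 * b * γ) * (7 * c * β + d * δ) -
        7 ^ (0 + 1) * (a * β + b * δ) * (c * α + d * γ) =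
        (α * δ - 7 * (β * γ)) * (a * d - 7 ^ (0 + 1) * b * c) := by ring
    rw [e, hm, h1, one_mul]
  · push_cast
    rw [h2]
    linear_combination (-((a : ZMod (7 ^ r)) * ((β : ZMod (7 ^ r)) + δ * x))) * u1
  · push_cast
    rw [h3]
    linear_combination (-((d : ZMod (7 ^ s)) * ((γ : ZMod (7 ^ s)) + α * y))) * u2

private theorem pl_gam {r s : ℕ} {a b c d : ℤ} {x : ZMod (7 ^ r)} {y : ZMod (7 ^ s)}
    (h : Pl7 0 a b c d x y) {α β γ δ : ℤ} (hg : α * δ - (7 ^ r * β) * (7 ^ (s + 1) * γ) = 1) :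
    Pl7 0 (α * a + 7 ^ r * β * (7 * c)) (α * b + 7 ^ r * β * d)
      (7 ^ s * γ * a + δ * c) (7 ^ (s + 1) * γ * b + δ * d) x y := by
  obtain ⟨h1, h2, h3⟩ := h
  have z1 : ((7 : ℤ) ^ r : ZMod (7 ^ r)) = 0 := by
    have := ZMod.natCast_self (7 ^ r)
    push_cast at this ⊢
    exact this
  have z2 : ((7 : ℤ) ^ s : ZMod (7 ^ s)) = 0 := by
    have := ZMod.natCast_self (7 ^ s)
    push_cast at this ⊢
    exact this
  refine ⟨?_, ?_, ?_⟩
  · have e : (α * a + 7 ^ r * β * (7 * c)) * (7 ^ (s + 1) * γ * b + δ * d) -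
        7 ^ (0 + 1) * (α * b + 7 ^ r * β * d) * (7 ^ s * γ * a + δ * c) =
        (α * δ - (7 ^ r * β) * (7 ^ (s + 1) * γ)) * (a * d - 7 ^ (0 + 1) * b * c) := by
      ring
    rw [e, hg, h1, one_mul]
  · push_cast at z1 ⊢
    rw [z1, h2]
    ring
  · push_cast at z2 ⊢
    rw [pow_succ, z2, h3]
    ring

/-! ### the function on the edges -/

private noncomputable def PX (r : ℕ) (a b : ℤ) : ZMod (7 ^ r) :=
  ((b : ℤ) : ZMod (7 ^ r)) * ((a : ℤ) : ZMod (7 ^ r))⁻¹

private theorem px_eq {r : ℕ} {a b A B : ℤ} {x : ZMod (7 ^ r)} (hA : A = a) (hB : B = b)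
    (ha : ¬ 7 ∣ a) (h : (b : ZMod (7 ^ r)) = x * a) : PX r A B = x := by
  subst hA hB
  unfold PX
  rw [h, mul_assoc, ZMod.mul_inv_of_unit _ (cop ha), mul_one]

/-- the representatives `1, (1 0; 1 1), (1 0; 2 1), (1 1; 1 2)` -/
private def rho : Fin 4 → ℤ × ℤ × ℤ × ℤ :=
  ![(1, 0, 0, 1), (1, 0, 1, 1), (1, 0, 2, 1), (1, 1, 1, 2)]

section

variable {R : Type} [AddCommGroup R] {r s : ℕ} (F : Fin 2 → ZMod (7 ^ r) → ZMod (7 ^ s) → R)

private def vl (k : Fin 4) (x : ZMod (7 ^ r)) (y : ZMod (7 ^ s)) : R :=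
  ![F 0 x y, F 0 x y + tr7 1 1 0 1 (F 0) x y, F 1 x y,
    F 0 x y + tr7 1 1 0 1 (F 0) x y - F 1 x y] k

private noncomputable def E0 (a b c d : ℤ) : R :=
  if c % 7 = 0 then eps a b c d • vl F 0 (PX r a b) (PX s d (c / 7))
  else if (c - d) % 7 = 0 then
    eps (a - b) b (c - d) d • vl F 1 (PX r (a - b) b) (PX s d ((c - d) / 7))
  else if (c - 2 * d) % 7 = 0 then
    eps (a - 2 * b) b (c - 2 * d) d • vl F 2 (PX r (a - 2 * b) b) (PX s d ((c - 2 * d) / 7))
  else eps (2 * a - b) (b - a) (2 * c - d) (d - c) •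
    vl F 3 (PX r (2 * a - b) (b - a)) (PX s (d - c) ((2 * c - d) / 7))

private noncomputable def EE (a b c d : ℤ) : R :=
  if c % 7 = 0 ∨ (c - d) % 7 = 0 ∨ (c - 2 * d) % 7 = 0 ∨ (c - 4 * d) % 7 = 0 then E0 F a b c d
  else -E0 F b (-a) d (-c)

/-- `(a b; c d) = γ ρ_k` and `v` is the value. -/
private def Val (k : Fin 4) (a b c d : ℤ) (v : R) : Prop :=
  ∃ (a' b' c' d' : ℤ) (x : ZMod (7 ^ r)) (y : ZMod (7 ^ s)), Pl7 0 a' b' c' d' x y ∧
    a = a' * (rho k).1 + b' * (rho k).2.2.1 ∧ b = a' * (rho k).2.1 + b' * (rho k).2.2.2 ∧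
    c = 7 * c' * (rho k).1 + d' * (rho k).2.2.1 ∧ d = 7 * c' * (rho k).2.1 + d' * (rho k).2.2.2 ∧
    v = eps a' b' (7 * c') d' • vl F k x y

variable {F}

private theorem val_neg {k : Fin 4} {a b c d : ℤ} {v : R} (h : Val F k a b c d v) :
    Val F k (-a) (-b) (-c) (-d) v := by
  obtain ⟨a', b', c', d', x, y, hp, rfl, rfl, rfl, rfl, rfl⟩ := h
  refine ⟨-a', -b', -c', -d', x, y, pl_neg hp, by ring, by ring, by ring, by ring, ?_⟩
  rw [eps_eq (rfl : -a' = -a') (rfl : -b' = -b') (by ring : 7 * -c' = -(7 * c')) rfl, eps_neg]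

private theorem val_gam {k : Fin 4} {α β γ δ : ℤ}
    (hg : α * δ - (7 ^ r * β) * (7 ^ (s + 1) * γ) = 1) {a b c d : ℤ} {v : R}
    (h : Val F k a b c d v) :
    Val F k (α * a + 7 ^ r * β * c) (α * b + 7 ^ r * β * d)
      (7 ^ (s + 1) * γ * a + δ * c) (7 ^ (s + 1) * γ * b + δ * d)
      (eps α (7 ^ r * β) (7 ^ (s + 1) * γ) δ • v) := by
  obtain ⟨a', b', c', d', x, y, hp, rfl, rfl, rfl, rfl, rfl⟩ := h
  refine ⟨_, _, _, _, x, y, pl_gam hp hg, by ring, by ring, by ring, by ring, ?_⟩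
  have hdt := pl_det hp
  rw [smul_smul, ← eps_mul (odd_one hg) (odd_one (by linear_combination hdt :
    a' * d' - b' * (7 * c') = 1))]
  rw [eps_eq rfl rfl (by ring : 7 ^ (s + 1) * γ * a' + δ * (7 * c') =
    7 * (7 ^ s * γ * a' + δ * c')) rfl]

/-- the value of `EE` for a matrix in one of the four classes -/
private theorem ev {k : Fin 4} {a b c d : ℤ} {v : R} (h : Val F k a b c d v) :
    EE F a b c d = v := by
  obtain ⟨a', b', c', d', x, y, hp, rfl, rfl, rfl, rfl, rfl⟩ := h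
  have hr := res (pl_det hp)
  obtain ⟨h1, h2, h3⟩ := hp
  have h4 := hr.2
  fin_cases k
  · simp only [rho, Fin.zero_eta, Matrix.cons_val_zero]
    unfold EE E0
    rw [if_pos (by omega), if_pos (by omega), px_eq (by ring) (by ring) hr.1 h2,
      px_eq (by ring) (by omega) hr.2 h3, eps_eq (a := a') (b := b') (c := 7 * c') (d := d') (by ring) (by ring) (by ring) (by ring)]
  · simp only [rho, Fin.mk_one, Matrix.cons_val_one, Matrix.cons_val_zero]
    unfold EE E0
    rw [if_pos (by omega), if_neg (by omega), if_pos (by omega),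
      px_eq (by ring) (by ring) hr.1 h2, px_eq (by ring) (by omega) hr.2 h3,
      eps_eq (a := a') (b := b') (c := 7 * c') (d := d') (by ring) (by ring) (by ring) (by ring)]
  · simp only [rho, Fin.reduceFinMk, Matrix.cons_val]
    unfold EE E0
    rw [if_pos (by omega), if_neg (by omega), if_neg (by omega), if_pos (by omega),
      px_eq (by ring) (by ring) hr.1 h2, px_eq (by ring) (by omega) hr.2 h3,
      eps_eq (a := a') (b := b') (c := 7 * c') (d := d') (by ring) (by ring) (by ring) (by ring)]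
  · simp only [rho, Fin.reduceFinMk, Matrix.cons_val]
    unfold EE E0
    rw [if_pos (by omega), if_neg (by omega), if_neg (by omega), if_neg (by omega),
      px_eq (by ring) (by ring) hr.1 h2, px_eq (by ring) (by omega) hr.2 h3,
      eps_eq (a := a') (b := b') (c := 7 * c') (d := d') (by ring) (by ring) (by ring) (by ring)]

/-- `EE (g S) = - EE g` for `g` in the first four classes -/
private theorem evS {k : Fin 4} {a b c d : ℤ} {v : R}
    (h : Val F k a b c d v) : EE F b (-a) d (-c) = -v := by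
  have h0 := ev (val_neg h)
  obtain ⟨a', b', c', d', x, y, hp, rfl, rfl, rfl, rfl, rfl⟩ := h
  have hr := res (pl_det hp)
  have h4 := hr.2
  fin_cases k
  · simp only [rho, Fin.zero_eta, Matrix.cons_val_zero] at h0 ⊢
    unfold EE at h0 ⊢
    rw [if_pos (by omega)] at h0
    rw [if_neg (by omega), h0]
  · simp only [rho, Fin.mk_one, Matrix.cons_val_one, Matrix.cons_val_zero] at h0 ⊢
    unfold EE at h0 ⊢
    rw [if_pos (by omega)] at h0
    rw [if_neg (by omega), h0]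
  · simp only [rho, Fin.reduceFinMk, Matrix.cons_val] at h0 ⊢
    unfold EE at h0 ⊢
    rw [if_pos (by omega)] at h0
    rw [if_neg (by omega), h0]
  · simp only [rho, Fin.reduceFinMk, Matrix.cons_val] at h0 ⊢
    unfold EE at h0 ⊢
    rw [if_pos (by omega)] at h0
    rw [if_neg (by omega), h0]

private theorem cls1 : ∀ c d : ZMod 7, (c = 0 ∧ d = 0) ∨ (c = 0 ∨ c - d = 0 ∨ c - 2 * d = 0 ∨
    c - 4 * d = 0) ∨ (d = 0 ∨ c + d = 0 ∨ c - 3 * d = 0 ∨ c - 5 * d = 0) := by
  decide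

private theorem four {a b c d : ℤ} (h : a * d - b * c = 1)
    (hc : 7 ∣ c ∨ 7 ∣ c - d ∨ 7 ∣ c - 2 * d ∨ 7 ∣ c - 4 * d) :
    ∃ k v, Val F k a b c d v := by
  rcases hc with ⟨c', hc'⟩ | ⟨c', hc'⟩ | ⟨c', hc'⟩ | ⟨c', hc'⟩
  · refine ⟨0, ?_⟩
    obtain ⟨x, y, hp⟩ := pl_mk r s (a := a) (b := b) (c := c') (d := d)
      (by subst hc'; linear_combination h)
    exact ⟨_, a, b, c', d, x, y, hp, by simp [rho], by simp [rho], by simp [rho, hc'],
      by simp [rho], rfl⟩
  · refine ⟨1, ?_⟩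
    obtain rfl : c = 7 * c' + d := by omega
    obtain ⟨x, y, hp⟩ := pl_mk r s (a := a - b) (b := b) (c := c') (d := d)
      (by linear_combination h)
    exact ⟨_, a - b, b, c', d, x, y, hp, by simp [rho], by simp [rho], by simp [rho],
      by simp [rho], rfl⟩
  · refine ⟨2, ?_⟩
    obtain rfl : c = 7 * c' + 2 * d := by omega
    obtain ⟨x, y, hp⟩ := pl_mk r s (a := a - 2 * b) (b := b) (c := c') (d := d)
      (by linear_combination h)
    exact ⟨_, a - 2 * b, b, c', d, x, y, hp, by simp [rho]; ring, by simp [rho],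
      by simp [rho]; ring, by simp [rho], rfl⟩
  · refine ⟨3, ?_⟩
    obtain ⟨e, he⟩ : ∃ e, 2 * c - d = 7 * e := ⟨2 * c' + d, by omega⟩
    obtain rfl : d = 2 * c - 7 * e := by omega
    obtain ⟨x, y, hp⟩ := pl_mk r s (a := 2 * a - b) (b := b - a) (c := e)
      (d := 2 * c - 7 * e - c) (by linear_combination h)
    exact ⟨_, 2 * a - b, b - a, e, 2 * c - 7 * e - c, x, y, hp, by simp [rho]; ring,
      by simp [rho]; ring, by simp [rho]; ring, by simp [rho]; ring, rfl⟩

private theorem e7d : ∀ z : ℤ, ((z : ℤ) : ZMod 7) = 0 → (7 : ℤ) ∣ z := fun z hz =>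
  (ZMod.intCast_zmod_eq_zero_iff_dvd z 7).1 hz

private theorem not00 {a b c d : ℤ} (h : a * d - b * c = 1) (hc : (7 : ℤ) ∣ c) (hd : (7 : ℤ) ∣ d) :
    False := by
  have h1 : (7 : ℤ) ∣ a * d - b * c := dvd_sub (hd.mul_left a) (hc.mul_left b)
  rw [h] at h1
  omega

private theorem cls {a b c d : ℤ} (h : a * d - b * c = 1) :
    (∃ k v, Val F k a b c d v) ∨ (∃ k v, Val F k b (-a) d (-c) v) := by
  have hS : b * (-c) - (-a) * d = 1 := by linear_combination h
  rcases cls1 c d with ⟨p, q⟩ | (p | p | p | p) | (p | p | p | p)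
  · exact (not00 h (e7d _ p) (e7d _ q)).elim
  · exact Or.inl (four h (Or.inl (e7d _ p)))
  · exact Or.inl (four h (Or.inr (Or.inl (e7d _ (by push_cast; exact p)))))
  · exact Or.inl (four h (Or.inr (Or.inr (Or.inl (e7d _ (by push_cast; exact p))))))
  · exact Or.inl (four h (Or.inr (Or.inr (Or.inr (e7d _ (by push_cast; exact p))))))
  · exact Or.inr (four hS (Or.inl (e7d _ p)))
  · have := e7d (c + d) (by push_cast; exact p)
    exact Or.inr (four hS (Or.inr (Or.inl (by omega))))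
  · have := e7d (c - 3 * d) (by push_cast; exact p)
    exact Or.inr (four hS (Or.inr (Or.inr (Or.inl (by omega)))))
  · have := e7d (c - 5 * d) (by push_cast; exact p)
    exact Or.inr (four hS (Or.inr (Or.inr (Or.inr (by omega)))))

/-- `Val` of the matrix times `S`, other direction -/
private theorem evS' {k : Fin 4} {a b c d : ℤ} {v : R}
    (h : Val F k b (-a) d (-c) v) : EE F a b c d = -v := by
  have h1 := evS (val_neg h)
  simp only [neg_neg] at h1
  exact h1

private theorem ee_S {a b c d : ℤ} (h : a * d - b * c = 1) :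
    EE F b (-a) d (-c) = -EE F a b c d := by
  rcases cls (F := F) h with ⟨k, v, hv⟩ | ⟨k, v, hv⟩
  · rw [ev hv, evS hv]
  · rw [ev hv, evS' hv, neg_neg]

private theorem ee_neg {a b c d : ℤ} (h : a * d - b * c = 1) :
    EE F (-a) (-b) (-c) (-d) = EE F a b c d := by
  rcases cls (F := F) h with ⟨k, v, hv⟩ | ⟨k, v, hv⟩
  · rw [ev hv, ev (val_neg hv)]
  · rw [evS' hv]
    exact evS' (val_neg hv)

private theorem ee_gam {α β γ δ : ℤ}
    (hg : α * δ - (7 ^ r * β) * (7 ^ (s + 1) * γ) = 1) {a b c d : ℤ}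
    (h : a * d - b * c = 1) :
    EE F (α * a + 7 ^ r * β * c) (α * b + 7 ^ r * β * d)
      (7 ^ (s + 1) * γ * a + δ * c) (7 ^ (s + 1) * γ * b + δ * d) =
      eps α (7 ^ r * β) (7 ^ (s + 1) * γ) δ • EE F a b c d := by
  rcases cls (F := F) h with ⟨k, v, hv⟩ | ⟨k, v, hv⟩
  · rw [ev hv, ev (val_gam hg hv)]
  · rw [evS' hv, smul_neg]
    apply evS' (k := k)
    have := val_gam hg hv
    convert this using 1 <;> ring

private def Tri (F : Fin 2 → ZMod (7 ^ r) → ZMod (7 ^ s) → R) (a b c d : ℤ) : Prop :=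
  EE F a b c d = EE F a (a + b) c (c + d) + EE F (a + b) b (c + d) d

private theorem tri_rot {a b c d : ℤ} (h : a * d - b * c = 1)
    (ht : Tri F (a + b) (-a) (c + d) (-c)) : Tri F a b c d := by
  unfold Tri at ht ⊢
  have e1 : a + b + -a = b := by ring
  have e2 : c + d + -c = d := by ring
  rw [e1, e2, ee_S h, ee_S (a := a) (b := a + b) (c := c) (d := c + d)
    (by linear_combination h)] at ht
  rw [eq_add_neg_iff_add_eq] at ht
  rw [← ht]
  abel

/-- the value for `γ ρ_k`, flexible form -/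
private theorem evk (k : Fin 4) {a b c d a' b' c' d' : ℤ} {x : ZMod (7 ^ r)} {y : ZMod (7 ^ s)}
    (hp : Pl7 0 a' b' c' d' x y)
    (ha : a = a' * (rho k).1 + b' * (rho k).2.2.1)
    (hb : b = a' * (rho k).2.1 + b' * (rho k).2.2.2)
    (hc : c = 7 * c' * (rho k).1 + d' * (rho k).2.2.1)
    (hd : d = 7 * c' * (rho k).2.1 + d' * (rho k).2.2.2) :
    EE F a b c d = eps a' b' (7 * c') d' • vl F k x y :=
  ev (k := k) ⟨a', b', c', d', x, y, hp, ha, hb, hc, hd, rfl⟩

/-- the value for `γ ρ_k S⁻¹`, flexible form -/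
private theorem evkS (k : Fin 4) {a b c d a' b' c' d' : ℤ} {x : ZMod (7 ^ r)} {y : ZMod (7 ^ s)}
    (hp : Pl7 0 a' b' c' d' x y)
    (ha : b = a' * (rho k).1 + b' * (rho k).2.2.1)
    (hb : -a = a' * (rho k).2.1 + b' * (rho k).2.2.2)
    (hc : d = 7 * c' * (rho k).1 + d' * (rho k).2.2.1)
    (hd : -c = 7 * c' * (rho k).2.1 + d' * (rho k).2.2.2) :
    EE F a b c d = -(eps a' b' (7 * c') d' • vl F k x y) :=
  evS' (k := k) ⟨a', b', c', d', x, y, hp, ha, hb, hc, hd, rfl⟩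

/-- the sign of a product -/
private theorem eps_p {a b c d α β γ δ e : ℤ} (h : a * d - 7 * (b * c) = 1)
    (hm : α * δ - 7 * (β * γ) = 1) (he : eps α β (7 * γ) δ = e) :
    eps (a * α + 7 * b * γ) (a * β + b * δ) (7 * (c * α + d * γ)) (7 * c * β + d * δ) =
      eps a b (7 * c) d * e := by
  have h3 := eps_mul (a := a) (b := b) (c := 7 * c) (d := d) (a' := α) (b' := β)
    (c' := 7 * γ) (d' := δ) (odd_one (by linear_combination h)) (odd_one (by linear_combination hm))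
  rw [he] at h3
  rw [← h3]
  exact eps_eq (by ring) rfl (by ring) rfl

/-- first class -/
private theorem tri_1 {a b c d : ℤ} (h : a * d - 7 * (b * c) = 1) :
    Tri F a b (7 * c) d := by
  obtain ⟨x, y, hp⟩ := pl_mk r s h
  have hm := pl_mul hp (α := 1) (β := 1) (γ := 0) (δ := 1) (by ring)
  unfold Tri
  rw [evk 0 hp (by simp [rho]) (by simp [rho]) (by simp [rho]) (by simp [rho]),
    evk 0 hm (by simp [rho]) (by simp [rho]) (by simp [rho]) (by simp [rho]),
    evk 1 hp (by simp [rho]) (by simp [rho]) (by simp [rho]) (by simp [rho])]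
  rw [eps_p h (α := 1) (β := 1) (γ := 0) (δ := 1) (e := -1) (by norm_num) (by decide)]
  rw [mul_neg_one, neg_smul]
  simp only [vl, Matrix.cons_val]
  unfold tr7
  rw [smul_add]
  abel

/-- second class -/
private theorem tri_2 {a b c d : ℤ} (h : a * d - 7 * (b * c) = 1) :
    Tri F (a + b) b (7 * c + d) d := by
  obtain ⟨x, y, hp⟩ := pl_mk r s h
  unfold Tri
  rw [evk 1 hp (by simp [rho]) (by simp [rho]) (by simp [rho]) (by simp [rho]),
    evk 3 hp (by simp [rho]) (by simp [rho]; ring) (by simp [rho]) (by simp [rho]; ring),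
    evk 2 hp (by simp [rho]; ring) (by simp [rho]) (by simp [rho]; ring) (by simp [rho])]
  simp only [vl, Matrix.cons_val]
  rw [smul_sub, sub_add_cancel]

/-- third class: the first relation -/
private theorem tri_3 (hR : RelE F) {a b c d : ℤ} (h : a * d - 7 * (b * c) = 1) :
    Tri F (a + 2 * b) b (7 * c + 2 * d) d := by
  obtain ⟨x, y, hp⟩ := pl_mk r s h
  have hm1 := pl_mul hp (α := 2) (β := -1) (γ := 1) (δ := -3) (by ring)
  have hm2 := pl_mul hp (α := 3) (β := -1) (γ := 1) (δ := -2) (by ring)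
  unfold Tri
  rw [evk 2 hp (by simp [rho]; ring) (by simp [rho]) (by simp [rho]; ring) (by simp [rho]),
    evkS 2 hm2 (by simp [rho]; ring) (by simp [rho]; ring) (by simp [rho]; ring) (by simp [rho]; ring),
    evkS 2 hm1 (by simp [rho]; ring) (by simp [rho]; ring) (by simp [rho]; ring) (by simp [rho]; ring)]
  rw [eps_p h (α := 2) (β := -1) (γ := 1) (δ := -3) (e := 1) (by norm_num) (by decide),
    eps_p h (α := 3) (β := -1) (γ := 1) (δ := -2) (e := 1) (by norm_num) (by decide), mul_one,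
    ← smul_neg, ← smul_neg, ← smul_add]
  congr 1
  have h2 := hR.1 x y
  simp only [vl, Matrix.cons_val]
  unfold tr7 at h2
  have h3 := eq_neg_of_add_eq_zero_left h2
  rw [eq_neg_iff_add_eq_zero] at h3
  have h4 : F 1 x y = -(F 1 ((((-1 : ℤ) : ZMod (7 ^ r)) + ((-3 : ℤ) : ZMod (7 ^ r)) * x) *
      (((2 : ℤ) : ZMod (7 ^ r)) + 7 * ((1 : ℤ) : ZMod (7 ^ r)) * x)⁻¹)
      ((((1 : ℤ) : ZMod (7 ^ s)) + ((2 : ℤ) : ZMod (7 ^ s)) * y) *
      (((-3 : ℤ) : ZMod (7 ^ s)) + 7 * ((-1 : ℤ) : ZMod (7 ^ s)) * y)⁻¹)) -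
      F 1 ((((-1 : ℤ) : ZMod (7 ^ r)) + ((-2 : ℤ) : ZMod (7 ^ r)) * x) *
      (((3 : ℤ) : ZMod (7 ^ r)) + 7 * ((1 : ℤ) : ZMod (7 ^ r)) * x)⁻¹)
      ((((1 : ℤ) : ZMod (7 ^ s)) + ((3 : ℤ) : ZMod (7 ^ s)) * y) *
      (((-2 : ℤ) : ZMod (7 ^ s)) + 7 * ((-1 : ℤ) : ZMod (7 ^ s)) * y)⁻¹) := by
    have h5 := h2
    rw [add_assoc] at h5
    have h6 := eq_neg_of_add_eq_zero_left h5
    rw [h6]
    abel
  rw [h4]
  abel

/-- fourth class: the second relation -/
private theorem tri_4 (hTrm : S7Trm) (hR : RelE F) {a b c d : ℤ} (h : a * d - 7 * (b * c) = 1) :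
    Tri F (a + b) (a + 2 * b) (7 * c + d) (7 * c + 2 * d) := by
  obtain ⟨x, y, hp⟩ := pl_mk r s h
  have hm1 := pl_mul hp (α := 5) (β := -3) (γ := 1) (δ := -4) (by ring)
  have hm2 := pl_mul hp (α := 4) (β := -3) (γ := 1) (δ := -5) (by ring)
  unfold Tri
  rw [evk 3 hp (by simp [rho]) (by simp [rho]; ring) (by simp [rho]) (by simp [rho]; ring),
    evkS 3 hm1 (by simp [rho]; ring) (by simp [rho]; ring) (by simp [rho]; ring) (by simp [rho]; ring),
    evkS 3 hm2 (by simp [rho]; ring) (by simp [rho]; ring) (by simp [rho]; ring) (by simp [rho]; ring)]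
  rw [eps_p h (α := 5) (β := -3) (γ := 1) (δ := -4) (e := 1) (by norm_num) (by decide),
    eps_p h (α := 4) (β := -3) (γ := 1) (δ := -5) (e := 1) (by norm_num) (by decide), mul_one,
    ← smul_neg, ← smul_neg, ← smul_add]
  congr 1
  have h2 := hR.2 x y
  have t1 := congrFun (congrFun ((hTrm R r s (F 0)).1 5 (-3) 1 (-4) 1 1 0 1 (by norm_num)
    (by norm_num) (by norm_num) (by norm_num)) x) y
  have t2 := congrFun (congrFun ((hTrm R r s (F 0)).1 4 (-3) 1 (-5) 1 1 0 1 (by norm_num)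
    (by norm_num) (by norm_num) (by norm_num)) x) y
  have e1 : tr7 (5 * 1 + 7 * (-3) * 0) (5 * 1 + (-3) * 1) (1 * 1 + (-4) * 0)
      (7 * 1 * 1 + (-4) * 1) (F 0) x y = tr7 5 2 1 3 (F 0) x y := by norm_num
  have e2 : tr7 (4 * 1 + 7 * (-3) * 0) (4 * 1 + (-3) * 1) (1 * 1 + (-5) * 0)
      (7 * 1 * 1 + (-5) * 1) (F 0) x y = tr7 4 1 1 2 (F 0) x y := by norm_num
  rw [e1] at t1
  rw [e2] at t2
  rw [← t1, ← t2] at h2
  simp only [vl, Matrix.cons_val]
  rw [add_assoc] at h2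
  have h6 := eq_neg_of_add_eq_zero_left h2
  rw [h6, neg_add]
  rfl

private theorem tri_all (hTrm : S7Trm) (hR : RelE F) {a b c d : ℤ} (h : a * d - b * c = 1) :
    Tri F a b c d := by
  have key : ∀ {a b c d : ℤ}, a * d - b * c = 1 → 7 ∣ c → Tri F a b c d := by
    intro a b c d h hc
    obtain ⟨c', rfl⟩ := hc
    exact tri_1 (by linear_combination h)
  have key2 : ∀ {a b c d : ℤ}, a * d - b * c = 1 → 7 ∣ c - d → Tri F a b c d := by
    intro a b c d h hc
    obtain ⟨c', hc'⟩ := hc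
    obtain rfl : c = 7 * c' + d := by omega
    have := tri_2 (F := F) (a := a - b) (b := b) (c := c') (d := d) (by linear_combination h)
    rw [sub_add_cancel] at this
    exact this
  have key3 : ∀ {a b c d : ℤ}, a * d - b * c = 1 → 7 ∣ c - 2 * d → Tri F a b c d := by
    intro a b c d h hc
    obtain ⟨c', hc'⟩ := hc
    obtain rfl : c = 7 * c' + 2 * d := by omega
    have := tri_3 (F := F) hR (a := a - 2 * b) (b := b) (c := c') (d := d)
      (by linear_combination h)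
    rw [sub_add_cancel] at this
    exact this
  have key4 : ∀ {a b c d : ℤ}, a * d - b * c = 1 → 7 ∣ c - 4 * d → Tri F a b c d := by
    intro a b c d h hc
    obtain ⟨e, he⟩ : ∃ e, 2 * c - d = 7 * e := by
      obtain ⟨c', hc'⟩ := hc
      exact ⟨2 * c' + d, by omega⟩
    have := tri_4 (F := F) hTrm hR (a := 2 * a - b) (b := b - a) (c := e) (d := d - c)
      (by linear_combination h + (b - a) * he)
    have g1 : 2 * a - b + (b - a) = a := by ring
    have g2 : 2 * a - b + 2 * (b - a) = b := by ring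
    have g3 : 7 * e + (d - c) = c := by omega
    have g4 : 7 * e + 2 * (d - c) = d := by omega
    rw [g1, g2, g3, g4] at this
    exact this
  rcases cls1 c d with ⟨p, q⟩ | (p | p | p | p) | (p | p | p | p)
  · exact (not00 h (e7d _ p) (e7d _ q)).elim
  · exact key h (e7d _ p)
  · exact key2 h (e7d _ (by push_cast; exact p))
  · exact key3 h (e7d _ (by push_cast; exact p))
  · exact key4 h (e7d _ (by push_cast; exact p))
  · exact tri_rot h (tri_rot (by linear_combination h)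
      (key (by linear_combination h) (by have := e7d _ p; omega)))
  · exact tri_rot h (key (by linear_combination h) (e7d _ (by push_cast; exact p)))
  · have h5 := e7d (c - 3 * d) (by push_cast; exact p)
    exact tri_rot h (key2 (by linear_combination h) (by omega))
  · have h5 := e7d (c - 5 * d) (by push_cast; exact p)
    exact tri_rot h (tri_rot (by linear_combination h)
      (key2 (by linear_combination h) (by omega)))

end

/-- Module Ex. -/
theorem hEx (ht : S7Trm) (ha : S7PlA) (_he : EEdg7) (hx : StFex) (hf : StFar) : TEx := by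
  intro R _ r s F hR
  obtain ⟨G, hGh, hG⟩ := hx R inferInstance (EE F) (fun a b c d h =>
    ⟨ee_neg h, ee_S h, tri_all ht hR h⟩)
  refine ⟨G, ⟨hGh, ?_⟩, ?_⟩
  · intro α β' γ' δ hdet hβ hγ
    obtain ⟨β, rfl⟩ := hβ
    obtain ⟨γ, rfl⟩ := hγ
    have hdet' : α * δ - 7 ^ r * β * (7 ^ (s + 1) * γ) = 1 := by exact_mod_cast hdet
    have hdet0 : α * δ - 7 ^ r * β * (7 ^ (s + 1) * γ) ≠ 0 := by
      rw [hdet']
      exact one_ne_zero
    have hH : Homog (act α (7 ^ r * β) (7 ^ (s + 1) * γ) δ G -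
        eps α (7 ^ r * β) (7 ^ (s + 1) * γ) δ • G) := by
      rw [sub_eq_add_neg]
      exact (hGh.act hdet0).add (hGh.smul _).neg
    obtain ⟨k, hk⟩ := hf R inferInstance _ hH (by
      intro a b c d h
      have h1 := hG a b c d h
      have h2 := hG (α * a + 7 ^ r * β * c) (α * b + 7 ^ r * β * d)
        (7 ^ (s + 1) * γ * a + δ * c) (7 ^ (s + 1) * γ * b + δ * d)
        (by linear_combination (a * d - b * c) * hdet' + h)
      rw [ee_gam hdet' h, ← h1, smul_sub] at h2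
      show G (α * a + 7 ^ r * β * c) (7 ^ (s + 1) * γ * a + δ * c) -
          eps α (7 ^ r * β) (7 ^ (s + 1) * γ) δ • G a c =
        G (α * b + 7 ^ r * β * d) (7 ^ (s + 1) * γ * b + δ * d) -
          eps α (7 ^ r * β) (7 ^ (s + 1) * γ) δ • G b d
      have h3 := sub_eq_iff_eq_add.1 h2
      rw [h3]
      abel)
    refine ⟨k, fun p q hpq => ?_⟩
    have h4 := hk p q hpq
    have h5 : act α (7 ^ r * β) (7 ^ (s + 1) * γ) δ G p q -
        eps α (7 ^ r * β) (7 ^ (s + 1) * γ) δ • G p q = k := by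
      have h6 : (0 : ℤ → ℤ → R) p q = 0 := rfl
      rw [h6, zero_add] at h4
      exact h4
    have h7 := (sub_eq_iff_eq_add.1 h5).trans (add_comm _ _)
    exact_mod_cast h7
  · intro i
    funext x y
    have hp := ha 0 r s x y
    have hd := pl_det hp
    have e : ∀ (k : Fin 4) (u1 u2 v1 v2 : ℤ), rho k = (u1, v1, u2, v2) → u1 * v2 - u2 * v1 = 1 →
        edgeE7 0 u1 u2 v1 v2 G x y = vl F k x y := by
      intro k u1 u2 v1 v2 hk hdet
      have h1 := evk (F := F) k hp rfl rfl rfl rfl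
      rw [hk] at h1
      rw [← hG _ _ _ _ ?_] at h1
      · have h2 : edge7 0 u1 u2 v1 v2 G x y =
            eps 1 (x.val : ℤ) (7 * rY7 0 x y) (1 + 7 ^ (0 + 1) * (x.val : ℤ) * rY7 0 x y) •
              vl F k x y := by
          rw [← h1]
          unfold edge7
          congr 1
          · congr 1 <;> ring
          · congr 1 <;> ring
        unfold edgeE7
        rw [h2]
        rw [eps_eq rfl (by ring : (7 : ℤ) ^ 0 * (x.val : ℤ) = (x.val : ℤ)) rfl rfl,
          smul_smul, eps_sq, one_smul]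
      · simp only
        linear_combination (u1 * v2 - u2 * v1) * hd + hdet
    fin_cases i
    · exact e 0 1 0 0 1 rfl (by norm_num)
    · exact e 2 1 2 0 1 rfl (by norm_num)

end Pool.Agent.Helper45.TL7
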